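import Pool.Agent.Helper18.NF.StA
import Pool.Agent.Helper18.NF.Basic
import Pool.Agent.Helper79.BV.Alt

/-!
# Project NF (MP_265190_nt), module NF-15: nonnegative Dirichlet coefficients
-/

set_option autoImplicit false

open Finset Filter Topology
open scoped ComplexOrder ArithmeticFunction.vonMangoldt ArithmeticFunction.zeta

namespace Pool.Agent.Helper1.NF

open Pool.Agent.Helper18.NF Pool.Agent.Helper18.BV

section
variable {n : ℕ} {r L : ArithmeticFunction ℝ} {κ : ℝ}

/-- powers of zeta, real -/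
noncomputable abbrev ZR (k : ℕ) : ArithmeticFunction ℝ :=
  ((ζ : ArithmeticFunction ℕ) : ArithmeticFunction ℝ) ^ k

theorem ZR_one (k : ℕ) : ZR k 1 = 1 := by
  induction k with
  | zero => simp [ZR]
  | succ k ih =>
    unfold ZR at ih ⊢
    rw [pow_succ, ArithmeticFunction.mul_apply_one, ih]
    simp

theorem ZR_nonneg (k m : ℕ) : 0 ≤ ZR k m := by
  induction k generalizing m with
  | zero =>
    unfold ZR
    rw [pow_zero]
    rcases eq_or_ne m 1 with rfl | hm
    · simp
    · rw [ArithmeticFunction.one_apply_ne hm]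
  | succ k ih =>
    unfold ZR at ih ⊢
    rw [pow_succ, ArithmeticFunction.mul_apply]
    apply Finset.sum_nonneg
    intro p _
    apply mul_nonneg (ih _)
    rw [ArithmeticFunction.natCoe_apply]
    exact Nat.cast_nonneg _

theorem r_le_ZR (h : IsSys n r L κ) (m : ℕ) : r m ≤ ZR n m := by
  rcases Nat.eq_zero_or_pos m with rfl | hm
  · simp
  have hZr : ∀ m : ℕ, 1 ≤ m → 0 ≤ (fun m => ZR n m - r m) m := by
    apply nonneg_of_log (f := fun m => ZR n m - r m) (K := fun m => L m)
    · simp only [ZR_one, h.one]; norm_num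
    · exact h.L_nonneg
    · exact h.L_one
    · intro m hm
      have h1 : ∑ p ∈ m.divisorsAntidiagonal, (ZR n p.1 - r p.1) * L p.2 =
          (∑ p ∈ m.divisorsAntidiagonal, ZR n p.1 * L p.2) - r m * Real.log m := by
        rw [← h.conv_sum m, ← Finset.sum_sub_distrib]
        exact Finset.sum_congr rfl fun p _ => by ring
      rw [h1]
      have h2 : ∑ p ∈ m.divisorsAntidiagonal, ZR n p.1 * L p.2 ≤ ZR n m * Real.log m := by
        have h3 : ZR n m * Real.log m =
            ∑ p ∈ m.divisorsAntidiagonal, ZR n p.1 * (n * Λ p.2) := by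
          have h4 : (DR (ZR n)) m = ((n : ArithmeticFunction ℝ) * (ZR n * Λ)) m := by
            rw [DR_zeta_pow]
          rw [DR_apply] at h4
          rw [h4]
          rw [natCast_mul_apply, ArithmeticFunction.mul_apply, Finset.mul_sum]
          exact Finset.sum_congr rfl fun p _ => by ring
        rw [h3]
        exact Finset.sum_le_sum fun p _ => mul_le_mul_of_nonneg_left (h.L_le _) (ZR_nonneg _ _)
      linarith
  have := hZr m hm
  simp only at this
  linarith

/-- complex values are multiplicative -/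
theorem cx_mul (f g : ArithmeticFunction ℝ) : cx (f * g) = cx f * cx g := by
  ext m
  rw [cx_apply, ArithmeticFunction.mul_apply, ArithmeticFunction.mul_apply]
  push_cast
  rfl

theorem cx_one : cx 1 = 1 := by
  ext m
  rw [cx_apply]
  rcases eq_or_ne m 1 with rfl | hm
  · simp
  · rw [ArithmeticFunction.one_apply_ne hm, ArithmeticFunction.one_apply_ne hm]; simp

theorem summable_zeta_pow (k : ℕ) {s : ℂ} (hs : 1 < s.re) :
    LSeriesSummable (fun m => cx (ZR k) m) s := by
  have hz : LSeriesSummable (fun m => cx ((ζ : ArithmeticFunction ℕ) : ArithmeticFunction ℝ) m)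
      s := by
    have h := ArithmeticFunction.LSeriesSummable_zeta_iff.mpr hs
    refine (LSeriesSummable_congr _ fun {n} _ => ?_).mpr h
    rw [cx_apply, ArithmeticFunction.natCoe_apply]
    push_cast
    rfl
  induction k with
  | zero =>
    have h1 : (fun m => cx (ZR 0) m) = LSeries.delta := by
      funext m
      unfold ZR
      rw [pow_zero, cx_one]
      unfold LSeries.delta
      rw [ArithmeticFunction.one_apply]
    rw [h1]
    unfold LSeriesSummable
    refine summable_of_ne_finset_zero (s := {1}) ?_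
    intro m hm
    rw [Finset.mem_singleton] at hm
    rcases eq_or_ne m 0 with rfl | h0
    · simp
    · rw [LSeries.term_of_ne_zero h0]
      unfold LSeries.delta
      rw [if_neg hm, zero_div]
  | succ k ih =>
    have h1 : cx (ZR (k + 1)) = cx (ZR k) * cx ((ζ : ArithmeticFunction ℕ) : ArithmeticFunction ℝ) := by
      unfold ZR
      rw [pow_succ, cx_mul]
    rw [h1]
    exact ArithmeticFunction.LSeriesSummable_mul ih hz

/-- domination -/
theorem summable_dom (h : IsSys n r L κ) {f : ℕ → ℂ} (hf : ∀ m, ‖f m‖ ≤ r m) {s : ℂ}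
    (hs : 1 < s.re) : LSeriesSummable f s := by
  have h1 := summable_zeta_pow n hs
  refine Summable.of_norm_bounded (g := fun m => ‖LSeries.term (fun m => cx (ZR n) m) s m‖)
    h1.norm ?_
  intro m
  apply LSeries.norm_term_le
  refine (hf m).trans ((r_le_ZR h m).trans ?_)
  rw [cx_apply, Complex.norm_real, Real.norm_eq_abs]
  exact le_abs_self _

/-- the twist by a real function -/
noncomputable def tr (r : ArithmeticFunction ℝ) (e : ℕ → ℝ) : ArithmeticFunction ℝ :=
  ⟨fun m => r m * e m, by simp⟩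

theorem tr_apply (r : ArithmeticFunction ℝ) (e : ℕ → ℝ) (m : ℕ) : tr r e m = r m * e m := rfl

theorem DR_tr (h : IsSys n r L κ) {e : ℕ → ℝ} (he : ∀ a b, e (a * b) = e a * e b) :
    DR (tr r e) = tr r e * tr L e := by
  ext m
  rw [DR_apply, tr_apply, ArithmeticFunction.mul_apply]
  have h1 := h.conv_sum m
  calc r m * e m * Real.log m = e m * (r m * Real.log m) := by ring
    _ = e m * ∑ p ∈ m.divisorsAntidiagonal, r p.1 * L p.2 := by rw [h1]
    _ = ∑ p ∈ m.divisorsAntidiagonal, tr r e p.1 * tr L e p.2 := by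
      rw [Finset.mul_sum]
      apply Finset.sum_congr rfl
      intro p hp
      rw [Nat.mem_divisorsAntidiagonal] at hp
      rw [tr_apply, tr_apply, ← hp.1, he]
      ring

/-- real values of a real character -/
theorem exists_real {q : ℕ} {χ : DirichletCharacter ℂ q} (hχ : χ ^ 2 = 1) :
    ∃ e : ℕ → ℝ, (∀ m : ℕ, χ (m : ZMod q) = (e m : ℂ)) ∧ (∀ a b, e (a * b) = e a * e b) ∧
      e 1 = 1 ∧ (∀ m, |e m| ≤ 1) := by
  refine ⟨fun m => (χ (m : ZMod q)).re, ?_, ?_, ?_, ?_⟩
  · intro m
    simp only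
    rcases Pool.Agent.Helper79.BV.chi_cases hχ m with h | h | h <;> simp only [h] <;> simp
  · intro a b
    simp only
    push_cast
    rw [map_mul]
    rcases Pool.Agent.Helper79.BV.chi_cases hχ a with h | h | h <;>
      rcases Pool.Agent.Helper79.BV.chi_cases hχ b with h' | h' | h' <;> rw [h, h'] <;> simp
  · simp
  · intro m
    simp only
    rcases Pool.Agent.Helper79.BV.chi_cases hχ m with h | h | h <;> rw [h] <;> simp

/-- `LSeries` of the twists -/
theorem LSeries_tr {q : ℕ} (χ : DirichletCharacter ℂ q) {e : ℕ → ℝ}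
    (he : ∀ m : ℕ, χ (m : ZMod q) = (e m : ℂ)) :
    (fun m => cx (tr r e) m) = tw r χ := by
  funext m
  rw [cx_apply, tr_apply]
  unfold tw
  rw [he m]
  push_cast
  rfl

theorem norm_tr_le (h : IsSys n r L κ) {e : ℕ → ℝ} (he : ∀ m, |e m| ≤ 1) (m : ℕ) :
    ‖cx (tr r e) m‖ ≤ r m := by
  rw [cx_apply, Complex.norm_real, Real.norm_eq_abs, tr_apply, abs_mul,
    abs_of_nonneg (h.r_nonneg m)]
  nlinarith [h.r_nonneg m, he m, abs_nonneg (e m)]

theorem norm_cx_le (h : IsSys n r L κ) (m : ℕ) : ‖cx r m‖ ≤ r m := by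
  rw [cx_apply, Complex.norm_real, Real.norm_eq_abs, abs_of_nonneg (h.r_nonneg m)]

/-- nonnegativity from the logarithmic derivative -/
theorem nonneg_of_DR {b K : ArithmeticFunction ℝ} (hb : DR b = b * K) (hb1 : 0 ≤ b 1)
    (hK : ∀ m, 0 ≤ K m) (hK1 : K 1 = 0) (m : ℕ) : 0 ≤ cx b m := by
  rw [cx_apply]
  have : 0 ≤ b m := by
    rcases Nat.eq_zero_or_pos m with rfl | hm
    · simp
    · refine nonneg_of_log (f := fun m => b m) (K := fun m => K m) hb1 hK hK1 ?_ m hm
      intro m _
      have h1 : DR b m = (b * K) m := by rw [hb]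
      rw [DR_apply, ArithmeticFunction.mul_apply] at h1
      exact h1.ge
  exact_mod_cast this

end

/-- A5'. -/
theorem altOneF : AltOneF := by
  intro n r L κ h q _ χ hχ
  obtain ⟨e, he, hmul, he1, habs⟩ := exists_real hχ
  set R1 := tr r e with hR1
  have hDR : DR (r * R1) = (r * R1) * (L + tr L e) := by
    rw [DR_mul, hR1, DR_tr h hmul, ← h.DR_eq]
    ring
  have hs0 : ∀ s : ℂ, 1 < s.re → LSeriesSummable (fun m => cx r m) s := fun s hs =>
    summable_dom h (norm_cx_le h) hs
  have hs1 : ∀ s : ℂ, 1 < s.re → LSeriesSummable (fun m => cx R1 m) s := fun s hs =>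
    summable_dom h (norm_tr_le h habs) hs
  have hcx : cx (r * R1) = cx r * cx R1 := cx_mul _ _
  have key := Pool.Agent.Helper79.BV.alt_of_eq (cx (r * R1))
    (fun s => LSeries (cr r) s * LSeries (tw r χ) s) ?_ ?_ ?_ ?_
  · exact key
  · apply nonneg_of_DR hDR
    · rw [ArithmeticFunction.mul_apply_one, hR1, tr_apply, h.one, he1]; norm_num
    · intro m
      rw [ArithmeticFunction.add_apply, tr_apply]
      nlinarith [h.L_nonneg m, abs_le.1 (habs m)]
    · rw [ArithmeticFunction.add_apply, tr_apply, h.L_one]; ring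
  · rw [cx_apply, ArithmeticFunction.mul_apply_one, hR1, tr_apply, h.one, he1]; norm_num
  · intro s hs
    rw [hcx]
    exact ArithmeticFunction.LSeriesSummable_mul (hs0 s hs) (hs1 s hs)
  · intro s hs
    rw [hcx, ArithmeticFunction.LSeries_mul' (hs0 s hs) (hs1 s hs), hR1, LSeries_tr χ he]
    rfl

/-- A5. -/
theorem altF : AltF := by
  intro n r L κ h q₁ q₂ q₃ _ _ _ χ₁ χ₂ χ₃ h1 h2 h3
  obtain ⟨e1, he1, hmul1, hone1, habs1⟩ := exists_real h1
  obtain ⟨e2, he2, hmul2, hone2, habs2⟩ := exists_real h2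
  set e3 : ℕ → ℝ := fun m => e1 m * e2 m with he3def
  have he3 : ∀ m : ℕ, χ₃ (m : ZMod q₃) = (e3 m : ℂ) := by
    intro m
    rw [h3, he1, he2, he3def]
    push_cast
    rfl
  have hmul3 : ∀ a b, e3 (a * b) = e3 a * e3 b := by
    intro a b
    simp only [he3def]
    rw [hmul1, hmul2]; ring
  have habs3 : ∀ m, |e3 m| ≤ 1 := by
    intro m
    simp only [he3def]
    rw [abs_mul]
    exact mul_le_one₀ (habs1 m) (abs_nonneg _) (habs2 m)
  set R1 := tr r e1 with hR1
  set R2 := tr r e2 with hR2
  set R3 := tr r e3 with hR3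
  have hDR : DR (r * R1 * R2 * R3) = (r * R1 * R2 * R3) * (L + tr L e1 + tr L e2 + tr L e3) := by
    rw [DR_mul, DR_mul, DR_mul, hR1, hR2, hR3, DR_tr h hmul1, DR_tr h hmul2, DR_tr h hmul3,
      ← h.DR_eq]
    ring
  have hs0 : ∀ s : ℂ, 1 < s.re → LSeriesSummable (fun m => cx r m) s := fun s hs =>
    summable_dom h (norm_cx_le h) hs
  have hs1 : ∀ s : ℂ, 1 < s.re → LSeriesSummable (fun m => cx R1 m) s := fun s hs =>
    summable_dom h (norm_tr_le h habs1) hs
  have hs2 : ∀ s : ℂ, 1 < s.re → LSeriesSummable (fun m => cx R2 m) s := fun s hs =>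
    summable_dom h (norm_tr_le h habs2) hs
  have hs3 : ∀ s : ℂ, 1 < s.re → LSeriesSummable (fun m => cx R3 m) s := fun s hs =>
    summable_dom h (norm_tr_le h habs3) hs
  have hcx : cx (r * R1 * R2 * R3) = cx r * cx R1 * cx R2 * cx R3 := by
    rw [cx_mul, cx_mul, cx_mul]
  have hone : (r * R1 * R2 * R3) 1 = 1 := by
    rw [ArithmeticFunction.mul_apply_one, ArithmeticFunction.mul_apply_one,
      ArithmeticFunction.mul_apply_one, hR1, hR2, hR3, tr_apply, tr_apply, tr_apply, h.one, hone1,
      hone2, he3def]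
    simp only
    rw [hone1, hone2]
    norm_num
  have key := Pool.Agent.Helper79.BV.alt_of_eq (cx (r * R1 * R2 * R3))
    (fun s => LSeries (cr r) s * LSeries (tw r χ₁) s * LSeries (tw r χ₂) s *
      LSeries (tw r χ₃) s) ?_ ?_ ?_ ?_
  · exact key
  · apply nonneg_of_DR hDR
    · rw [hone]; norm_num
    · intro m
      simp only [ArithmeticFunction.add_apply, tr_apply, he3def]
      have a1 := abs_le.1 (habs1 m)
      have a2 := abs_le.1 (habs2 m)
      have : L m + L m * e1 m + L m * e2 m + L m * (e1 m * e2 m) =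
          L m * ((1 + e1 m) * (1 + e2 m)) := by ring
      rw [this]
      exact mul_nonneg (h.L_nonneg m) (mul_nonneg (by linarith) (by linarith))
    · simp only [ArithmeticFunction.add_apply, tr_apply, h.L_one]; ring
  · rw [cx_apply, hone]; norm_num
  · intro s hs
    rw [hcx]
    exact ArithmeticFunction.LSeriesSummable_mul (ArithmeticFunction.LSeriesSummable_mul
      (ArithmeticFunction.LSeriesSummable_mul (hs0 s hs) (hs1 s hs)) (hs2 s hs)) (hs3 s hs)
  · intro s hs
    rw [hcx, ArithmeticFunction.LSeries_mul' (ArithmeticFunction.LSeriesSummable_mul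
      (ArithmeticFunction.LSeriesSummable_mul (hs0 s hs) (hs1 s hs)) (hs2 s hs)) (hs3 s hs),
      ArithmeticFunction.LSeries_mul' (ArithmeticFunction.LSeriesSummable_mul (hs0 s hs)
        (hs1 s hs)) (hs2 s hs), ArithmeticFunction.LSeries_mul' (hs0 s hs) (hs1 s hs), hR1, hR2,
      hR3, LSeries_tr χ₁ he1, LSeries_tr χ₂ he2, LSeries_tr χ₃ he3]
    rfl

end Pool.Agent.Helper1.NF
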