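import Pool.Agent.Helper18.NF.StN

/-!
# Project NF (MP_265190_nt), module NF-6: complete character sums over the ideal classes cancel
-/

set_option autoImplicit false

open Finset Filter Topology NumberField Module MeasureTheory
open scoped nonZeroDivisors Classical

namespace Pool.Agent.Helper1.NF

open Pool.Agent.Helper18.NF Pool.Agent.Helper18.BV

section
variable {K : Type} [Field K] [NumberField K]

/-- The norm of an element of an ideal is divisible by the norm of the ideal. -/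
theorem absNorm_dvd_norm {𝔟 : Ideal (𝓞 K)} {x : 𝓞 K} (hx : x ∈ 𝔟) :
    (Ideal.absNorm 𝔟 : ℤ) ∣ Algebra.norm ℤ x := by
  have h := Ideal.absNorm_dvd_absNorm_of_le ((Ideal.span_singleton_le_iff_mem 𝔟).2 hx)
  rw [Ideal.absNorm_span_singleton] at h
  exact Int.natCast_dvd.2 h

omit [NumberField K] in
/-- equality in the quotient -/
theorem qt_eq {𝔟 : Ideal (𝓞 K)} {k : ℕ} (x y : 𝔟) :
    (QuotientAddGroup.mk x : Qt 𝔟 k) = QuotientAddGroup.mk y ↔ ∃ z : 𝔟, k • z = -x + y := by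
  rw [QuotientAddGroup.eq]
  exact Iff.rfl

/-- The summand only depends on the class. -/
theorem chi_out (h : PerN) {𝔟 : Ideal (𝓞 K)} (hb : 𝔟 ≠ ⊥) {k : ℕ} (χ : DirichletCharacter ℂ k)
    (x y : 𝔟) (hxy : (QuotientAddGroup.mk x : Qt 𝔟 k) = QuotientAddGroup.mk y) :
    χ ((rn 𝔟 (x : 𝓞 K) : ℤ) : ZMod k) = χ ((rn 𝔟 (y : 𝓞 K) : ℤ) : ZMod k) := by
  obtain ⟨z, hz⟩ := (qt_eq x y).1 hxy
  have e : (y : 𝓞 K) = (x : 𝓞 K) + k * (z : 𝓞 K) := by
    have h1 : y = x + k • z := by rw [hz]; abel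
    rw [h1]
    push_cast
    simp
  rw [e, h K 𝔟 hb k x x.2 z z.2]

/-- Transport of the complete sums. -/
theorem cs_transport (h : PerN) {𝔟 𝔟' : Ideal (𝓞 K)} (hb' : 𝔟' ≠ ⊥) {k : ℕ}
    (χ : DirichletCharacter ℂ k) (w : ℂ) (e : 𝔟 →+ 𝔟')
    (hinj : ∀ x : 𝔟, (∃ z : 𝔟', k • z = e x) → ∃ z : 𝔟, k • z = x)
    (hsurj : ∀ y : 𝔟', ∃ (x : 𝔟) (z : 𝔟'), k • z = -y + e x)
    (hval : ∀ x : 𝔟, χ ((rn 𝔟' ((e x : 𝔟') : 𝓞 K) : ℤ) : ZMod k) =
      w * χ ((rn 𝔟 (x : 𝓞 K) : ℤ) : ZMod k)) :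
    cs 𝔟' χ = w * cs 𝔟 χ := by
  have hle : (nsmulAddMonoidHom (α := (𝔟 : Type)) k).range ≤
      ((nsmulAddMonoidHom (α := (𝔟' : Type)) k).range).comap e := by
    rintro _ ⟨z, rfl⟩
    exact ⟨e z, by simp⟩
  let E : Qt 𝔟 k →+ Qt 𝔟' k := QuotientAddGroup.map _ _ e hle
  have hE : ∀ x : 𝔟, E (QuotientAddGroup.mk x) = QuotientAddGroup.mk (e x) := fun x => rfl
  have hbij : Function.Bijective E := by
    constructor
    · rw [injective_iff_map_eq_zero]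
      intro c
      refine QuotientAddGroup.induction_on c ?_
      intro x hx
      rw [hE, QuotientAddGroup.eq_zero_iff] at hx
      rw [QuotientAddGroup.eq_zero_iff]
      obtain ⟨z, hz⟩ := hx
      obtain ⟨z', hz'⟩ := hinj x ⟨z, hz⟩
      exact ⟨z', hz'⟩
    · intro c
      refine QuotientAddGroup.induction_on c ?_
      intro y
      obtain ⟨x, z, hz⟩ := hsurj y
      refine ⟨QuotientAddGroup.mk x, ?_⟩
      rw [hE]
      exact ((qt_eq y (e x)).2 ⟨z, hz⟩).symm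
  unfold cs
  rw [← smul_eq_mul, smul_finsum]
  symm
  refine finsum_eq_of_bijective E hbij ?_
  intro c
  rw [smul_eq_mul, ← hval]
  refine chi_out h hb' χ _ _ ?_
  rw [← hE]
  have h1 : (QuotientAddGroup.mk (Quotient.out c) : Qt 𝔟 k) = c := Quotient.out_eq c
  have h2 : (QuotientAddGroup.mk (Quotient.out (E c)) : Qt 𝔟' k) = E c := Quotient.out_eq (E c)
  rw [h1, h2]

/-- Step 1: multiplication by an ideal of norm coprime to `k`. -/
theorem cs_ideal (h : PerN) {𝔩 𝔟 : Ideal (𝓞 K)} (hl : 𝔩 ≠ ⊥) (hb : 𝔟 ≠ ⊥) {k : ℕ}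
    (hk : (Ideal.absNorm 𝔩).Coprime k) (χ : DirichletCharacter ℂ k) :
    cs 𝔟 χ = χ ((Ideal.absNorm 𝔩 : ℕ) : ZMod k) * cs (𝔩 * 𝔟) χ := by
  -- Bezout
  obtain ⟨u, v, huv⟩ : ∃ u v : ℤ, u * (Ideal.absNorm 𝔩 : ℤ) + v * (k : ℤ) = 1 := by
    have := Nat.isCoprime_iff_coprime.2 hk
    exact this
  set l0 : 𝓞 K := (u : 𝓞 K) * (Ideal.absNorm 𝔩 : ℕ) with hl0
  have hl0m : l0 ∈ 𝔩 := Ideal.mul_mem_left _ _ (Ideal.absNorm_mem 𝔩)
  have hbez : l0 + (v : 𝓞 K) * (k : ℕ) = 1 := by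
    have := congrArg (Int.cast : ℤ → 𝓞 K) huv
    push_cast at this
    rw [hl0]
    exact this
  refine cs_transport h hb χ _
    (AddSubgroup.inclusion (H := (𝔩 * 𝔟).toAddSubgroup) (K := 𝔟.toAddSubgroup)
      (fun x hx => (Ideal.mul_le.2 (fun _ _ s hs => 𝔟.mul_mem_left _ hs) : 𝔩 * 𝔟 ≤ 𝔟) hx)) ?_ ?_ ?_
  · rintro ⟨x, hx⟩ ⟨⟨z, hz⟩, hzx⟩
    have hzx' : (k : 𝓞 K) * z = x := by
      have h1 := congrArg (Subtype.val) hzx
      change k • z = x at h1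
      rwa [nsmul_eq_mul] at h1
    refine ⟨⟨(v : 𝓞 K) * x + l0 * z, ?_⟩, ?_⟩
    · exact Ideal.add_mem _ (Ideal.mul_mem_left _ _ hx) (Ideal.mul_mem_mul hl0m hz)
    · apply Subtype.ext
      change k • ((v : 𝓞 K) * x + l0 * z) = x
      rw [nsmul_eq_mul]
      calc (k : 𝓞 K) * ((v : 𝓞 K) * x + l0 * z) = (v : 𝓞 K) * k * x + l0 * (k * z) := by ring
        _ = (l0 + (v : 𝓞 K) * k) * x := by rw [hzx']; ring
        _ = x := by rw [hbez, one_mul]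
  · rintro ⟨y, hy⟩
    refine ⟨⟨l0 * y, Ideal.mul_mem_mul hl0m hy⟩, ⟨-((v : 𝓞 K) * y), ?_⟩, ?_⟩
    · exact 𝔟.neg_mem (Ideal.mul_mem_left _ _ hy)
    · apply Subtype.ext
      change k • (-((v : 𝓞 K) * y)) = -y + l0 * y
      rw [nsmul_eq_mul]
      have : l0 * y = y - (v : 𝓞 K) * k * y := by
        linear_combination y * hbez
      rw [this]
      ring
  · rintro ⟨x, hx⟩
    change χ ((rn 𝔟 x : ℤ) : ZMod k) = _ * χ ((rn (𝔩 * 𝔟) x : ℤ) : ZMod k)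
    rw [← map_mul]
    congr 1
    obtain ⟨m, hm⟩ := absNorm_dvd_norm hx
    have hb0 : (Ideal.absNorm 𝔟 : ℤ) ≠ 0 := by
      rw [Ne, Int.natCast_eq_zero, Ideal.absNorm_eq_zero_iff]
      exact hb
    have hl0' : (Ideal.absNorm 𝔩 : ℤ) ≠ 0 := by
      rw [Ne, Int.natCast_eq_zero, Ideal.absNorm_eq_zero_iff]
      exact hl
    unfold rn
    rw [hm, map_mul]
    push_cast
    rw [Int.mul_ediv_cancel_left _ (mul_ne_zero hl0' hb0)]
    rw [show (Ideal.absNorm 𝔩 : ℤ) * (Ideal.absNorm 𝔟) * m = Ideal.absNorm 𝔟 * (Ideal.absNorm 𝔩 * m)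
      by ring, Int.mul_ediv_cancel_left _ hb0]
    push_cast
    ring

/-- The norm of a product. -/
theorem absNorm_span_mul (g : 𝓞 K) (𝔟 : Ideal (𝓞 K)) :
    (Ideal.absNorm (Ideal.span {g} * 𝔟) : ℤ) =
      |Algebra.norm ℤ g| * (Ideal.absNorm 𝔟 : ℤ) := by
  rw [map_mul, Ideal.absNorm_span_singleton]
  push_cast
  rfl

/-- Step 2: multiplication by an element of positive norm. -/
theorem cs_elem (h : PerN) {𝔟 : Ideal (𝓞 K)} (hb : 𝔟 ≠ ⊥) {k : ℕ} {g : 𝓞 K}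
    (hg : 0 < Algebra.norm ℤ g) (χ : DirichletCharacter ℂ k) :
    cs (Ideal.span {g} * 𝔟) χ = cs 𝔟 χ := by
  have hg0 : g ≠ 0 := by
    rintro rfl
    simp at hg
  have hs0 : Ideal.span {g} ≠ ⊥ := by
    rwa [Ne, Ideal.span_singleton_eq_bot]
  have hprod : Ideal.span {g} * 𝔟 ≠ ⊥ := mul_ne_zero hs0 hb
  have hmem : ∀ x : 𝔟, g * (x : 𝓞 K) ∈ Ideal.span {g} * 𝔟 := fun x =>
    Ideal.mul_mem_mul (Ideal.mem_span_singleton_self g) x.2
  have key := cs_transport h (𝔟 := 𝔟) (𝔟' := Ideal.span {g} * 𝔟) hprod χ 1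
    (e := { toFun := fun x => ⟨g * (x : 𝓞 K), hmem x⟩
            map_zero' := by
              apply Subtype.ext
              change g * ((0 : 𝔟) : 𝓞 K) = 0
              simp
            map_add' := by
              intro x y
              apply Subtype.ext
              change g * ((x + y : 𝔟) : 𝓞 K) = g * x + g * y
              push_cast
              ring }) ?_ ?_ ?_
  · rw [one_mul] at key
    exact key
  · rintro ⟨x, hx⟩ ⟨⟨z, hz⟩, hzx⟩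
    have hzx' : (k : 𝓞 K) * z = g * x := by
      have h1 := congrArg (Subtype.val) hzx
      change k • z = g * x at h1
      rwa [nsmul_eq_mul] at h1
    obtain ⟨z', hz', rfl⟩ := Ideal.mem_span_singleton_mul.1 hz
    refine ⟨⟨z', hz'⟩, ?_⟩
    apply Subtype.ext
    change k • z' = x
    rw [nsmul_eq_mul]
    apply mul_left_cancel₀ hg0
    rw [← hzx']
    ring
  · rintro ⟨y, hy⟩
    obtain ⟨x, hx, rfl⟩ := Ideal.mem_span_singleton_mul.1 hy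
    refine ⟨⟨x, hx⟩, 0, ?_⟩
    rw [smul_zero]
    apply Subtype.ext
    change (0 : 𝓞 K) = -(g * x) + g * x
    ring
  · rintro ⟨x, hx⟩
    change χ ((rn (Ideal.span {g} * 𝔟) (g * x) : ℤ) : ZMod k) = _ * χ ((rn 𝔟 x : ℤ) : ZMod k)
    rw [one_mul]
    congr 2
    obtain ⟨m, hm⟩ := absNorm_dvd_norm hx
    have hb0 : (Ideal.absNorm 𝔟 : ℤ) ≠ 0 := by
      rw [Ne, Int.natCast_eq_zero, Ideal.absNorm_eq_zero_iff]
      exact hb
    unfold rn
    rw [absNorm_span_mul, abs_of_pos hg, map_mul, hm]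
    rw [Int.mul_ediv_cancel_left _ hb0,
      show Algebra.norm ℤ g * ((Ideal.absNorm 𝔟 : ℤ) * m) =
        (Algebra.norm ℤ g * (Ideal.absNorm 𝔟 : ℤ)) * m by ring,
      Int.mul_ediv_cancel_left _ (mul_ne_zero hg.ne' hb0)]

/-- In odd degree we may change the sign of an element to get a positive norm. -/
theorem exists_pos_gen (hodd : Odd (finrank ℚ K)) {g : 𝓞 K} (hg : g ≠ 0) :
    ∃ g' : 𝓞 K, 0 < Algebra.norm ℤ g' ∧ Ideal.span {g'} = Ideal.span ({g} : Set (𝓞 K)) := by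
  have hn : Algebra.norm ℤ g ≠ 0 := by
    rwa [Ne, Algebra.norm_eq_zero_iff]
  rcases lt_or_gt_of_ne hn with h1 | h1
  · refine ⟨-g, ?_, Ideal.span_singleton_neg g⟩
    have h2 : Algebra.norm ℤ (-g) = - Algebra.norm ℤ g := by
      rw [← neg_one_mul, map_mul]
      have h3 : Algebra.norm ℤ (-1 : 𝓞 K) = -1 := by
        have h4 : (-1 : 𝓞 K) = algebraMap ℤ (𝓞 K) (-1) := by simp
        rw [h4, Algebra.norm_algebraMap]
        rw [RingOfIntegers.rank]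
        exact hodd.neg_one_pow
      rw [h3]
      ring
    rw [h2]
    omega
  · exact ⟨g, h1, rfl⟩

/-- Step 3: the sum only depends on the class. -/
theorem cs_class (h : PerN) (hodd : Odd (finrank ℚ K)) {k : ℕ} (χ : DirichletCharacter ℂ k)
    (𝔟 𝔟' : (Ideal (𝓞 K))⁰) (hc : ClassGroup.mk0 𝔟 = ClassGroup.mk0 𝔟') :
    cs (𝔟 : Ideal (𝓞 K)) χ = cs (𝔟' : Ideal (𝓞 K)) χ := by
  obtain ⟨x, y, hx, hy, hxy⟩ := ClassGroup.mk0_eq_mk0_iff.1 hc
  obtain ⟨x', hx', ex⟩ := exists_pos_gen hodd hx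
  obtain ⟨y', hy', ey⟩ := exists_pos_gen hodd hy
  have hb : (𝔟 : Ideal (𝓞 K)) ≠ ⊥ := nonZeroDivisors.coe_ne_zero 𝔟
  have hb' : (𝔟' : Ideal (𝓞 K)) ≠ ⊥ := nonZeroDivisors.coe_ne_zero 𝔟'
  rw [← cs_elem h hb hx' χ, ← cs_elem h hb' hy' χ, ex, ey, hxy]

end

/-- N6: the complete character sums cancel. -/
theorem charSum (h : PerN) : CharSum := by
  intro K _ _ hodd k _ χ hχ 𝔟 h𝔟
  obtain ⟨𝔩, hcop, hne⟩ := hχ
  have hl : 𝔩 ≠ ⊥ := by
    rintro rfl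
    rw [Ideal.absNorm_bot, Nat.coprime_zero_left] at hcop
    subst hcop
    apply hne
    have : ((Ideal.absNorm (⊥ : Ideal (𝓞 K)) : ℕ) : ZMod 1) = 1 := Subsingleton.elim _ _
    rw [this, map_one]
  set l : (Ideal (𝓞 K))⁰ := ⟨𝔩, mem_nonZeroDivisors_of_ne_zero hl⟩ with hldef
  set w : ℂ := χ ((Ideal.absNorm 𝔩 : ℕ) : ZMod k) with hw
  have key : ∀ c : ClassGroup (𝓞 K), cs (𝔟 c : Ideal (𝓞 K)) χ =
      w * cs (𝔟 (ClassGroup.mk0 l * c) : Ideal (𝓞 K)) χ := by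
    intro c
    have hb : (𝔟 c : Ideal (𝓞 K)) ≠ ⊥ := nonZeroDivisors.coe_ne_zero _
    rw [cs_ideal h hl hb hcop χ]
    congr 1
    have h2 : (𝔩 * (𝔟 c : Ideal (𝓞 K))) = ((l * 𝔟 c : (Ideal (𝓞 K))⁰) : Ideal (𝓞 K)) := rfl
    rw [h2]
    apply cs_class h hodd
    rw [map_mul, h𝔟, h𝔟]
  have hS : ∑ c : ClassGroup (𝓞 K), cs (𝔟 c : Ideal (𝓞 K)) χ =
      w * ∑ c : ClassGroup (𝓞 K), cs (𝔟 c : Ideal (𝓞 K)) χ := by
    calc ∑ c : ClassGroup (𝓞 K), cs (𝔟 c : Ideal (𝓞 K)) χ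
        = ∑ c : ClassGroup (𝓞 K), w * cs (𝔟 (ClassGroup.mk0 l * c) : Ideal (𝓞 K)) χ :=
          Finset.sum_congr rfl (fun c _ => key c)
      _ = w * ∑ c : ClassGroup (𝓞 K), cs (𝔟 (ClassGroup.mk0 l * c) : Ideal (𝓞 K)) χ := by
          rw [Finset.mul_sum]
      _ = _ := by
          congr 1
          exact Equiv.sum_comp (Equiv.mulLeft (ClassGroup.mk0 l))
            (fun c => cs (𝔟 c : Ideal (𝓞 K)) χ)
  have h3 : (1 - w) * ∑ c : ClassGroup (𝓞 K), cs (𝔟 c : Ideal (𝓞 K)) χ = 0 := by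
    linear_combination hS
  rcases mul_eq_zero.1 h3 with h4 | h4
  · exact absurd (sub_eq_zero.1 h4).symm hne
  · exact h4

end Pool.Agent.Helper1.NF
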