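import Pool.Agent.Helper18.NF.StN

/-!
# Project NF (MP_265190_nt), module NF-5: periodicity of the relative norm
-/

set_option autoImplicit false

open Finset Filter Topology NumberField Module MeasureTheory
open scoped nonZeroDivisors Classical

namespace Pool.Agent.Helper1.NF

open Pool.Agent.Helper18.NF Pool.Agent.Helper18.BV

section
variable {K : Type} [Field K] [NumberField K]

/-- The determinant modulo `k` is periodic. -/
theorem det_add_smul_mod {M : Type} [AddCommGroup M] [Module.Free ℤ M] [Module.Finite ℤ M]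
    (f g : M →ₗ[ℤ] M) (k : ℕ) :
    ((LinearMap.det (f + (k : ℤ) • g) : ℤ) : ZMod k) = ((LinearMap.det f : ℤ) : ZMod k) := by
  set b := Module.Free.chooseBasis ℤ M with hb
  rw [← LinearMap.det_toMatrix b, ← LinearMap.det_toMatrix b]
  have h1 : ∀ A : Matrix (Module.Free.ChooseBasisIndex ℤ M) (Module.Free.ChooseBasisIndex ℤ M) ℤ,
      ((A.det : ℤ) : ZMod k) = ((Int.castRingHom (ZMod k)).mapMatrix A).det := by
    intro A
    rw [← RingHom.map_det]
    rfl
  rw [h1, h1, map_add, map_smul]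
  congr 1
  ext i j
  simp only [RingHom.mapMatrix_apply, Matrix.map_apply, Matrix.add_apply, Matrix.smul_apply,
    smul_eq_mul, map_add, map_mul]
  simp

/-- N5: periodicity of the relative norm. -/
theorem perN : PerN := by
  intro K _ _ 𝔟 hb k α hα β hβ
  set B := Module.Free.chooseBasis ℤ (𝓞 K) with hB
  set BI := Ideal.selfBasis B 𝔟 hb with hBI
  set e : 𝓞 K ≃ₗ[ℤ] 𝔟 := B.equiv BI (Equiv.refl _) with he
  set ι : 𝓞 K →ₗ[ℤ] 𝓞 K := (Submodule.subtype 𝔟).restrictScalars ℤ ∘ₗ e.toLinearMap with hι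
  have hdet : (LinearMap.det ι).natAbs = Ideal.absNorm 𝔟 := by
    have := Ideal.natAbs_det_equiv 𝔟 e
    exact this
  have hι0 : LinearMap.det ι ≠ 0 := by
    intro h0
    rw [h0, Int.natAbs_zero] at hdet
    exact hb (Ideal.absNorm_eq_zero_iff.1 hdet.symm)
  -- the multiplication maps into the ideal
  let mulTo : ∀ a : 𝓞 K, a ∈ 𝔟 → (𝓞 K →ₗ[ℤ] 𝔟) := fun a ha =>
    { toFun := fun x => ⟨a * x, 𝔟.mul_mem_right x ha⟩
      map_add' := fun x y => Subtype.ext (mul_add a x y)
      map_smul' := fun c x => Subtype.ext (mul_smul_comm c a x) }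
  have hM : ∀ (a : 𝓞 K) (ha : a ∈ 𝔟), Algebra.norm ℤ a =
      LinearMap.det ι * LinearMap.det (e.symm.toLinearMap ∘ₗ mulTo a ha) := by
    intro a ha
    rw [← LinearMap.det_comp, Algebra.norm_apply]
    congr 1
    ext x
    simp only [hι, LinearMap.comp_apply, LinearEquiv.coe_coe, LinearEquiv.apply_symm_apply]
    rfl
  have hrn : ∀ (a : 𝓞 K) (ha : a ∈ 𝔟), rn 𝔟 a =
      (LinearMap.det ι).sign * LinearMap.det (e.symm.toLinearMap ∘ₗ mulTo a ha) := by
    intro a ha
    unfold rn
    rw [hM a ha, ← hdet]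
    have h2 : LinearMap.det ι = ((LinearMap.det ι).natAbs : ℤ) * (LinearMap.det ι).sign := by
      rw [mul_comm, Int.sign_mul_natAbs]
    have h3 : ((LinearMap.det ι).natAbs : ℤ) ≠ 0 := by
      rw [Ne, Int.natCast_eq_zero, Int.natAbs_eq_zero]
      exact hι0
    calc LinearMap.det ι * LinearMap.det (e.symm.toLinearMap ∘ₗ mulTo a ha) /
          ((LinearMap.det ι).natAbs : ℤ)
        = (((LinearMap.det ι).natAbs : ℤ) * ((LinearMap.det ι).sign *
            LinearMap.det (e.symm.toLinearMap ∘ₗ mulTo a ha))) /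
            ((LinearMap.det ι).natAbs : ℤ) := by
          rw [← mul_assoc, ← h2]
      _ = _ := Int.mul_ediv_cancel_left _ h3
  have hγ : α + k * β ∈ 𝔟 := 𝔟.add_mem hα (𝔟.mul_mem_left _ hβ)
  rw [hrn α hα, hrn (α + k * β) hγ]
  have hadd : e.symm.toLinearMap ∘ₗ mulTo (α + k * β) hγ =
      e.symm.toLinearMap ∘ₗ mulTo α hα + (k : ℤ) • (e.symm.toLinearMap ∘ₗ mulTo β hβ) := by
    rw [← LinearMap.comp_smul, ← LinearMap.comp_add]
    congr 1
    refine LinearMap.ext fun x => Subtype.ext ?_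
    change (α + k * β) * x = α * x + (k : ℤ) • (β * x)
    rw [zsmul_eq_mul]
    push_cast
    ring
  rw [hadd]
  push_cast
  rw [det_add_smul_mod]

end

end Pool.Agent.Helper1.NF
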